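import Mathlib
import Pool.Agent.V1153.GH.OrbG

/-!
# Sums of exponentials of entire functions and general hypersurfaces in the projective space

Let `d_1 + ... + d_q ≥ 2 n + 1` and let `r` and `e` be given. For general forms `F_1, ..., F_q` of
degrees `d_1, ..., d_q` in `n + 1` variables, all holomorphic maps from `ℂ^k` to the complement of the
hypersurfaces `F_i = 0` in the projective space of dimension `n`, whose homogeneous coordinates are
sums of `r` functions `p exp h` with polynomials `p` of degree at most `e` and arbitrary entire
functions `h`, are constant. More generally, this holds for the maps whose image is contained in some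
of the hypersurfaces, and for the maps whose contact orders with the other hypersurfaces are
multiples of numbers `m_i ≥ m₀`, where `m₀` depends only on `n`, the `d_i`, `r` and `e`.
-/

set_option autoImplicit false

namespace Pool.Agent.Results.MP_64ff02_ag.GeneralOrbifolds

open MvPolynomial

/-- The function `f` of `k` complex variables is a sum of `r` functions `p exp h`, where `p` is a
polynomial of total degree at most `e` and `h` is an entire function. -/
def ExpSum (k r e : ℕ) (f : (Fin k → ℂ) → ℂ) : Prop :=
  ∃ (p : Fin r → MvPolynomial (Fin k) ℂ) (h : Fin r → (Fin k → ℂ) → ℂ),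
    (∀ i, (p i).totalDegree ≤ e ∧ Differentiable ℂ (h i)) ∧
    ∀ z, f z = ∑ i, eval z (p i) * Complex.exp (h i z)

/-- the indices of the coefficients of `q` forms of degrees `d i` in `n + 1` variables -/
abbrev Coeffs (n : ℕ) {q : ℕ} (d : Fin q → ℕ) : Type :=
  (i : Fin q) × {α : Fin (n + 1) →₀ ℕ // α.degree = d i}

/-- Let `∑ d i ≥ 2 n + 1` and let `r` and `e` be given. There are a number `m₀` and a nonzero polynomial
`Φ` in the coefficients of `q` forms of degrees `d i` in `n + 1` variables such that the following holds
for all forms `F i` of degree `d i` at whose coefficients `Φ` does not vanish. Let `g` be a vector of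
`n + 1` functions on `ℂ^k`, each a sum of `r` functions `p exp h` with a polynomial `p` of degree at most
`e` and an arbitrary entire function `h`, such that each of the functions `F i (g)` has no zeros or is
a power of an entire function with an exponent `m ≥ m₀` (this includes the case `F i (g) = 0`). Then
the quotients of the coordinates of `g` are constant. -/
theorem result (n q : ℕ) (d : Fin q → ℕ) (hd : 2 * n + 1 ≤ ∑ i, d i) (r e : ℕ) :
    ∃ (m₀ : ℕ) (Φ : MvPolynomial (Coeffs n d) ℂ), Φ ≠ 0 ∧
      ∀ F : Fin q → MvPolynomial (Fin (n + 1)) ℂ, (∀ i, (F i).IsHomogeneous (d i)) →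
        eval (fun x : Coeffs n d => coeff x.2.1 (F x.1)) Φ ≠ 0 →
        ∀ (k : ℕ) (g : (Fin k → ℂ) → Fin (n + 1) → ℂ), (∀ j, ExpSum k r e fun z => g z j) →
          (∀ i, (∀ z, eval (g z) (F i) ≠ 0) ∨ ∃ (m : ℕ) (h : (Fin k → ℂ) → ℂ), m₀ ≤ m ∧
            Differentiable ℂ h ∧ ∀ z, eval (g z) (F i) = h z ^ m) →
            ∀ z w j l, g z j * g w l = g z l * g w j :=
  Pool.Agent.V1153.GH.gen_orb d hd r e

end Pool.Agent.Results.MP_64ff02_ag.GeneralOrbifolds
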