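import Pool.Agent.W619.X.Final

/-!
# Open quotients of products of curves: log general type, or covered by images of a low curve

`U` is the quotient of a product of `n` smooth curves, affine or projective, by a finite group `G` which acts on
each factor. `F i ⊆ L` is the function field of the `i`-th curve, `L` the function field of the product, `fixedField G`
that of `U`; the points of the `i`-th projective curve which do not belong to the `i`-th curve are those over the
finite set `B i` of points of the quotient curve, which has the function field `F i ⊓ fixedField G`. `QBd F G B` is the
set of the places of the function field of `U` whose centre is not on `U`. So `KodGe k (fixedField G) n (QBd F G B) n`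
says that `U` (that is, its desingularizations) is of log general type.

`δ i` is an orbifold divisor on the `i`-th quotient curve: for each `i`, `K + δ i` has positive degree, or the curve is
flat (an elliptic curve, or the projective line minus two points) and `K + δ i` has degree at least `0`, or the curve
is the projective or the affine line. `RTCond` is a condition of Reid-Tai type on the fixed points of the elements of
`G` on the product (it holds if `G` has no fixed points there).
-/

set_option autoImplicit false
set_option linter.overlappingInstances false

universe u v

open FF IntermediateField Pool.Agent.W619.PQ Pool.Agent.W619.PL Pool.Agent.W619.TW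
  Pool.Agent.W619.X

namespace Pool.Agent.Results.MP_64ff02_ag.OpenProductQuotients

/-- **Log general type, or covered by images of an open curve which is not of log general type.** See the beginning
of the file. In the second case `U` is neither pseudo Brody hyperbolic nor pseudo Picard hyperbolic nor strongly of
log general type. -/
theorem result {k : Type v} [Field k] [CharZero k] [IsAlgClosed k] {L : Type u} [Field L]
    [Algebra k L] (n : ℕ) (hn : Algebra.trdeg k L = n)
    (F : Fin n → IntermediateField k L) (hF : ∀ i, IsFF k (F i)) (hsup : ⨆ i, F i = ⊤)
    (G : Subgroup (L ≃ₐ[k] L)) [Finite G] (hst : ∀ i, ∀ g ∈ G, ∀ z ∈ F i, g z ∈ F i)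
    (B : ∀ i, Set (Place k ↥(F i ⊓ fixedField G))) (hB : ∀ i, (B i).Finite)
    (δ : ∀ i, Place k ↥(F i ⊓ fixedField G) → ℚ)
    (hδ : ∀ i, OrbPos inf_le_left (B i) (δ i) ∨
      (IsFlat inf_le_left (B i) ∧ OrbNonneg inf_le_left (B i) (δ i)) ∨
      IsNegative inf_le_left (B i))
    (hrot : RTCond G F B δ) :
    KodGe k (fixedField G) n (QBd F G B) n ∨ IsLowCovered k (fixedField G) n (QBd F G B) :=
  gt_x n hn F hF hsup G hst B hB δ hδ hrot

end Pool.Agent.Results.MP_64ff02_ag.OpenProductQuotients
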