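import Pool.Agent.V1153.PK.FinQ
import Pool.Agent.V1153.UG.Six

/-!
# Quasi-projective varieties and the derivatives of holomorphic discs

Let `X` be the complement of a hypersurface `Q = 0` in an irreducible projective variety over the
complex numbers, with the homogeneous ideal `I` (all affine and all projective varieties are of this
form). We consider holomorphic maps from the unit disc to `X`.

`DAlgQ (homs I) Q m`: the maps all of whose quotients of homogeneous coordinates are algebraic
functions which satisfy an equation of bidegree at most `(m, m)`.

`DCxQ (homs I) Q s r e d`: the maps of complexity at most `(s, r, e, d)`: in some open set the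
homogeneous coordinates and `1 / Q` of them, up to a common factor, are polynomials of degree at most
`e` in each of the functions `z`, `1 / q(z)` and the entries of the solutions `y_1, ..., y_s` of
iterated systems of `r` linear differential equations, and `q` is a polynomial of degree at most `d`.

`PseudoBddQ I Q q 𝒟`: there is a proper closed subset `G = 0` of `X` such that for each compact subset
of `X` which does not meet `G = 0` the norms of the derivatives at the centre, for the Fubini-Study
metric, of the discs in `𝒟` with centres in the compact subset are bounded; in other words, the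
infinitesimal Kobayashi-Royden pseudometric given by the discs in `𝒟` is, locally uniformly on the
complement of a proper closed subset, bounded below by a multiple of a metric: `X` is pseudo-Kobayashi
hyperbolic as far as the discs in `𝒟` are concerned.

We show that `X` has this property for all the classes of the second kind if and only if it is not
covered by curves of the punctured line, and for all the classes of the first kind if and only if for
each `N` the curves of the affine line of degree at most `N` in `X` are contained in a proper closed
subset. So it holds if `X` is of log general type, or pseudo Brody hyperbolic, or pseudo Picard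
hyperbolic.
-/

set_option autoImplicit false

namespace Pool.Agent.Results.MP_64ff02_ag.PseudoKobayashi

open MvPolynomial Pool.Agent.V1153.UG Pool.Agent.V1153.KB
open Pool.Agent.TH143.GT (FunField)
open Pool.Agent.W602.GT (LogGeneralType)
open Pool.Agent.W603.GR (OffQ)

/-- **(1)** For all `D` and `(s, r, e, d)` there is `N` such that for the complement `X` of `Q = 0` in
any projective variety with the equations `E` and any form `G` which vanishes on the images of all
nonconstant maps of degree at most `N` from the punctured line to `X`, all degrees being at most `D`:
the derivatives at the centre of the discs of complexity `(s, r, e, d)` in `X` with centres in a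
compact subset of `X` outside of `G = 0` are bounded. **(2)** If `G` vanishes on the images of all
nonconstant maps of degree at most `(n + 1) m` from the affine line to `X`, then the same holds for
the algebraic discs of bidegree at most `(m, m)`. **(3)** For an irreducible `X` the following are
equivalent: `X` is not covered by curves of the punctured line; for all `(s, r, e, d)` the derivatives
of the discs of complexity `(s, r, e, d)` with centres in compact subsets outside of some proper closed
subset are bounded. **(4)** The following are equivalent: for each `N` the curves of the affine line of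
degree at most `N` are contained in a proper closed subset; for each `m` the derivatives of the
algebraic discs of bidegree at most `(m, m)` with centres in compact subsets outside of some proper
closed subset are bounded. **(5)** All this holds if `X` is of log general type, or pseudo Brody
hyperbolic, or pseudo Picard hyperbolic. -/
theorem result (n : ℕ) :
    (∀ D s r e d : ℕ, ∃ N, ∀ (E : Set (MvPolynomial (Fin (n + 1)) ℂ))
      (Q G : MvPolynomial (Fin (n + 1)) ℂ) (q γ : ℕ), (∀ F ∈ E, ∃ a ≤ D, F.IsHomogeneous a) →
        q ≤ D → Q.IsHomogeneous q → γ ≤ D → G.IsHomogeneous γ → VanGm (Ideal.span E) Q N G →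
          BddOff (Q * G) (q + γ) (DCxQ E Q s r e d)) ∧
    (∀ (m : ℕ) (E : Set (MvPolynomial (Fin (n + 1)) ℂ)), (∀ F ∈ E, ∃ a, F.IsHomogeneous a) →
      ∀ (Q G : MvPolynomial (Fin (n + 1)) ℂ) (q γ : ℕ), Q.IsHomogeneous q → G.IsHomogeneous γ →
        (∀ P, LineC E Q ((n + 1) * m) P → ∀ t, eval (fun j => (P j).eval t) G = 0) →
          BddOff (Q * G) (q + γ) (DAlgQ E Q m)) ∧
    ∀ (I : Ideal (MvPolynomial (Fin (n + 1)) ℂ)), I.IsPrime →
      ∀ (Q : MvPolynomial (Fin (n + 1)) ℂ) (q : ℕ), Q.IsHomogeneous q →
        (¬ GmRuled I Q ↔ ∀ s r e d, PseudoBddQ I Q q (DCxQ (homs I) Q s r e d)) ∧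
        (LineThin I Q ↔ ∀ m, PseudoBddQ I Q q (DAlgQ (homs I) Q m)) ∧
        (((∃ (K : Type) (_ : Field K) (_ : Algebra ℂ K) (w : ℕ) (y : Fin (n + 1) → K),
            FunField I Q K w y ∧ LogGeneralType ℂ K w (OffQ Q q y)) ∨
          PseudoBrody I Q ∨ PseudoPicard I Q) → ¬ GmRuled I Q ∧ LineThin I Q) := by
  refine ⟨fun D s r e d => off_cxQ n D s r e d, fun m E hE Q G q γ hQ hG hv =>
    off_algQ hE hQ hG hv, fun I hI Q q hQ => ⟨pseudoQ_iff hI hQ, pseudoQ_line hQ, fun h => ?_⟩⟩
  have h6 := six hI hQ
  have h1 : ¬ GmRuled I Q := by
    rcases h with ⟨K, _, _, w, y, hy, hL⟩ | h | h
    · exact not_ruled_of_lgt hQ hy hL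
    · exact (h6.out 0 2).2 h.thin
    · exact (h6.out 0 4).2 h.thin
  refine ⟨h1, fun N => ?_⟩
  obtain ⟨G, hG, hGI, hv⟩ := (thin_iff hI hQ).2 h1 N
  exact ⟨G, hG, hGI, fun P hP => hv P (gm_homs.1 hP.gm)⟩

end Pool.Agent.Results.MP_64ff02_ag.PseudoKobayashi
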