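import Pool.Agent.V1153.UG.Six

/-!
# Uniform exceptional sets for curves given by linear differential equations

Let `X` be the complement of the hypersurface `Q = 0` in the irreducible projective variety with the
ideal `I`; all projective and all affine varieties are of this form. We consider the following
properties of `X`.

(1) `X` is not covered by curves of the punctured line: there is no field `L` over `ℂ` with a
nonconstant map, given by polynomials over `L`, from the multiplicative group to `X` over `L` which
does not map to a proper closed subset of `X` (`¬ GmRuled`).

(2) For each `N` the nonconstant maps of degree at most `N` from the multiplicative group to `X` have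
images in one proper closed subset of `X` (`GmThin`).

(3) For all `r` and `d` there is one proper closed subset of `X` that contains all nonconstant entire
curves in `X` whose homogeneous coordinates satisfy linear differential equations of order at most
`r` with polynomial coefficients of degree at most `d` (`DFinThin`).

(4) The same for all nonconstant entire curves of complexity at most `(s, r, e, d)`, that is, whose
homogeneous coordinates `h_j`, in some open set and up to a common factor, and `1 / Q(h)`, are
polynomials of degree at most `e` in each of the functions `z`, `1 / q(z)` and the entries of the
solutions `y_1, ..., y_s` of iterated systems of `r` linear differential equations: the coefficients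
of the system for `y_l` are polynomials of degree at most `e` in each of `z`, `1 / q(z)` and the
entries of `y_1, ..., y_{l-1}`, and `q` is a polynomial of degree at most `d` (`EntireThin`).

(5) For all `(s, r, e, d)` there is one proper closed subset of `X` such that all holomorphic maps of
complexity at most `(s, r, e, d)` from the punctured disc to `X` with an essential singularity have
images in it (`DiscThin`).

(6) For all `(s, r, e, d)` there is one proper closed subset of `X` such that the ratios of the
coordinates of all other analytic arcs in `X` of complexity at most `(s, r, e, d)` are algebraic
functions of bounded degree and height (`ArcThin`).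

These properties are equivalent, and they hold if `X` is of log general type, or pseudo Brody
hyperbolic, or pseudo Picard hyperbolic.
-/

set_option autoImplicit false

namespace Pool.Agent.Results.MP_64ff02_ag.UniformComplexity

open MvPolynomial Pool.Agent.V1153.UG
open Pool.Agent.TH143.GT (FunField)
open Pool.Agent.W602.GT (LogGeneralType)
open Pool.Agent.W603.GR (OffQ)

/-- Let `X` be the complement of `Q = 0` in the projective variety with the ideal `I`. If `X` is of
log general type, or pseudo Brody hyperbolic, or pseudo Picard hyperbolic, then `X` is not covered by
curves of the punctured line, and this is equivalent to the existence, for each complexity, of one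
proper closed subset of `X` that contains all nonconstant entire curves of bounded complexity, or all
maps from the punctured disc of bounded complexity with an essential singularity, or all analytic
arcs of bounded complexity which are not algebraic of bounded degree and height. -/
theorem result {n : ℕ} (I : Ideal (MvPolynomial (Fin (n + 1)) ℂ)) (hI : I.IsPrime)
    (Q : MvPolynomial (Fin (n + 1)) ℂ) (q : ℕ) (hQ : Q.IsHomogeneous q) :
    List.TFAE [¬ GmRuled I Q, GmThin I Q, DFinThin I Q, EntireThin I Q, DiscThin I Q,
      ArcThin I Q] ∧
    (((∃ (K : Type) (_ : Field K) (_ : Algebra ℂ K) (w : ℕ) (y : Fin (n + 1) → K),
          FunField I Q K w y ∧ LogGeneralType ℂ K w (OffQ Q q y)) ∨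
        PseudoBrody I Q ∨ PseudoPicard I Q) → ¬ GmRuled I Q) := by
  have h6 := six hI hQ
  refine ⟨h6, ?_⟩
  rintro (⟨K, _, _, w, y, hy, hL⟩ | h | h)
  · exact not_ruled_of_lgt hQ hy hL
  · exact (h6.out 0 2).2 h.thin
  · exact (h6.out 0 4).2 h.thin

end Pool.Agent.Results.MP_64ff02_ag.UniformComplexity
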